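import Mathlib
import Pool.Agent.Helper509.SphDefs
import Pool.Agent.Helper509.SphRed
import Pool.Agent.Helper509.Semi
import Pool.Agent.Helper509.Emp
import Pool.Agent.Y381.Sph.Law
import Pool.Agent.Y381.Sph.Adm
import Pool.Agent.Y381.Sph.Sub

/-!
# The functions `f_n` of spherical integrals and the R-transform, for every law

All definitions (`sphInt`, `fn`, `Admissible`, `IsRContinuation`, ...) are in
`Pool/Agent/Helper509/SphDefs.lean`.
-/

set_option autoImplicit false

open MeasureTheory Filter Topology

namespace Pool.Agent.Results.MP_7cef9e_pr.AllLaws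

open Pool.Agent.Helper509.SphDefs

/-- Let `μ` be a compactly supported law on the line and `R` an analytic continuation of its
R-transform to the upper half-plane (for freely infinitely divisible laws there is one).

1. There is an admissible sequence of matrices for `μ` such that `f_n(z)` converges to `R(z)` at
   every point of the upper half-plane if and only if `μ` is a point mass.
2. If `μ` is not a point mass, there are admissible sequences for `μ`, and for every admissible
   sequence: along every subsequence the set of points of the upper half-plane at which `f_n(z)`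
   does not converge to `R(z)` has positive area; and there are `ε > 0` and `r` such that for all
   large `n` one has `|f_n(z) - R(z)| ≥ ε` on a set of area at least `ε` in the half disc
   `Im z > 0`, `|z| < r`.

The semicircle law is an example of a freely infinitely divisible law which is not a point mass. -/
theorem result :
    (∀ (μ : Measure ℝ) (R : ℂ → ℂ), CompactProb μ → IsRContinuation μ R →
      ((∃ E : ∀ n : ℕ, Matrix (Fin n) (Fin n) ℂ, Admissible E μ ∧
          ∀ z : ℂ, 0 < z.im → Tendsto (fun n : ℕ => fn n (E n) z) atTop (𝓝 (R z))) ↔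
        ∃ a : ℝ, μ = Measure.dirac a) ∧
      ((∀ a : ℝ, μ ≠ Measure.dirac a) →
        (∃ E : ∀ n : ℕ, Matrix (Fin n) (Fin n) ℂ, Admissible E μ) ∧
        ∀ E : ∀ n : ℕ, Matrix (Fin n) (Fin n) ℂ, Admissible E μ →
          (∀ φ : ℕ → ℕ, StrictMono φ →
            0 < volume {z : ℂ | 0 < z.im ∧
              ¬ Tendsto (fun n : ℕ => fn (φ n) (E (φ n)) z) atTop (𝓝 (R z))}) ∧
          ∃ ε r : ℝ, 0 < ε ∧ ∀ᶠ n : ℕ in atTop, ENNReal.ofReal ε ≤
            volume {z : ℂ | 0 < z.im ∧ ‖z‖ < r ∧ ε ≤ ‖fn n (E n) z - R z‖})) ∧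
    ∃ (μ : Measure ℝ) (R : ℂ → ℂ), CompactProb μ ∧ FreelyInfDiv μ ∧ IsRContinuation μ R ∧
      ∀ a : ℝ, μ ≠ Measure.dirac a := by
  refine ⟨fun μ R hμ hR => ⟨⟨?_, ?_⟩, fun hd => ⟨Pool.Agent.Y381.Sph.exists_adm hμ,
    fun E hE => ⟨fun φ hφ => Pool.Agent.Y381.Sph.not_ae_sub hμ hR hd E hE φ hφ,
      Pool.Agent.Y381.Sph.not_in_measure hμ hR hd E hE⟩⟩⟩,
    semicircle, fun z => z, Pool.Agent.Helper509.Emp.compactProb_semicircle,
    Pool.Agent.Helper509.Emp.freelyInfDiv_semicircle,
    ⟨differentiableOn_id, fun z => z, Pool.Agent.Helper509.Emp.isRTransform_semicircle,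
      Eventually.of_forall fun _ => rfl⟩,
    Pool.Agent.Helper509.Emp.semicircle_not_dirac⟩
  · rintro ⟨E, hE, hconv⟩
    by_contra hcon
    push Not at hcon
    have h1 := Pool.Agent.Y381.Sph.not_ae_sub hμ hR hcon E hE id strictMono_id
    have h2 : {z : ℂ | 0 < z.im ∧
        ¬ Tendsto (fun n : ℕ => fn (id n) (E (id n)) z) atTop (𝓝 (R z))} = ∅ := by
      rw [Set.eq_empty_iff_forall_notMem]
      rintro z ⟨h3, h4⟩
      exact h4 (hconv z h3)
    rw [h2, measure_empty] at h1
    exact lt_irrefl _ h1
  · rintro ⟨a, rfl⟩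
    refine ⟨_, Pool.Agent.Y381.Sph.admissible_scalar a, fun z hz => ?_⟩
    rw [Pool.Agent.Y381.Sph.rContinuation_dirac hR z hz]
    apply tendsto_const_nhds.congr'
    filter_upwards [eventually_gt_atTop 0] with n hn
    exact (Pool.Agent.Y381.Sph.fn_scalar a hn z).symm

end Pool.Agent.Results.MP_7cef9e_pr.AllLaws
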